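import Mathlib
import Pool.Agent.Lib.MP_9dc04a_an.O3Top
import Pool.Agent.Lib.MP_9dc04a_an.HyFin

namespace Pool.Agent.Results.MP_9dc04a_an.Eventually

/-- Every normalised univalent sense-preserving harmonic map `h + conj g` of the unit disk
satisfies both conjectured coefficient bounds for all sufficiently large `n`. -/
theorem result :
    ∀ h g : ℂ → ℂ,
      DifferentiableOn ℂ h (Metric.ball (0:ℂ) 1) →
      DifferentiableOn ℂ g (Metric.ball (0:ℂ) 1) →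
      h 0 = 0 → deriv h 0 = 1 → g 0 = 0 → deriv g 0 = 0 →
      Set.InjOn (fun z => h z + starRingEnd ℂ (g z)) (Metric.ball (0:ℂ) 1) →
      (∀ z ∈ Metric.ball (0:ℂ) 1, ‖deriv g z‖ < ‖deriv h z‖) →
      ∃ n₀ : ℕ, ∀ n : ℕ, n₀ ≤ n →
        ‖iteratedDeriv n h 0 / (n.factorial : ℂ)‖ ≤ ((n:ℝ) + 1) * (2 * (n:ℝ) + 1) / 6 ∧
        ‖iteratedDeriv n g 0 / (n.factorial : ℂ)‖ ≤ ((n:ℝ) - 1) * (2 * (n:ℝ) - 1) / 6 :=
  fun _ _ dh dg h0 h1 g0 g1 inj jac =>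
    Pool.Agent.Lib.MP_9dc04a_an.hy_event Pool.Agent.Lib.MP_9dc04a_an.order3
      ⟨⟨dh, dg, inj, jac⟩, h0, g0, h1, g1⟩

end Pool.Agent.Results.MP_9dc04a_an.Eventually
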