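import Mathlib
import Pool.Agent.Lib.MP_9dc04a_an.QTop
import Pool.Agent.Lib.MP_9dc04a_an.QBr

namespace Pool.Agent.Results.MP_9dc04a_an.SharpA2

/-- For every normalised univalent sense-preserving harmonic map `h + conj g` of the unit disk,
`|a₂| ≤ (2 + 1) (2 * 2 + 1) / 6 = 5 / 2`. -/
theorem result :
    ∀ h g : ℂ → ℂ,
      DifferentiableOn ℂ h (Metric.ball (0:ℂ) 1) →
      DifferentiableOn ℂ g (Metric.ball (0:ℂ) 1) →
      h 0 = 0 → deriv h 0 = 1 → g 0 = 0 → deriv g 0 = 0 →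
      Set.InjOn (fun z => h z + starRingEnd ℂ (g z)) (Metric.ball (0:ℂ) 1) →
      (∀ z ∈ Metric.ball (0:ℂ) 1, ‖deriv g z‖ < ‖deriv h z‖) →
      ‖iteratedDeriv 2 h 0 / ((2:ℕ).factorial : ℂ)‖ ≤ 5 / 2 := by
  intro h g dh dg _ h1 _ g1 inj jac
  refine (Pool.Agent.Lib.MP_9dc04a_an.reduce dh dg h1 g1 inj jac le_rfl (by norm_num)).1
    fun N t Ed H d h₁ h₂ h₃ v F => ?_
  have := F.a2
  norm_num
  exact this

end Pool.Agent.Results.MP_9dc04a_an.SharpA2
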