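import Mathlib
import Pool.Agent.Lib.MP_9dc04a_an.B3Lib

namespace Pool.Agent.Results.MP_9dc04a_an.SharpB3

/-- For every normalised univalent sense-preserving harmonic map `h + conj g` of the unit disk,
`|b₃| ≤ (3 - 1) (2 * 3 - 1) / 6 = 5 / 3`. -/
theorem result :
    ∀ h g : ℂ → ℂ,
      DifferentiableOn ℂ h (Metric.ball (0:ℂ) 1) →
      DifferentiableOn ℂ g (Metric.ball (0:ℂ) 1) →
      h 0 = 0 → deriv h 0 = 1 → g 0 = 0 → deriv g 0 = 0 →
      Set.InjOn (fun z => h z + starRingEnd ℂ (g z)) (Metric.ball (0:ℂ) 1) →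
      (∀ z ∈ Metric.ball (0:ℂ) 1, ‖deriv g z‖ < ‖deriv h z‖) →
      ‖iteratedDeriv 3 g 0 / ((3:ℕ).factorial : ℂ)‖ ≤ 5 / 3 := by
  intro h g dh dg _ h1 _ g1 inj jac
  have := Pool.Agent.Lib.MP_9dc04a_an.b3_bound dh dg h1 g1 inj jac
  rw [norm_div]
  norm_num [Nat.factorial]
  linarith

end Pool.Agent.Results.MP_9dc04a_an.SharpB3
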