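import Mathlib
import Pool.Agent.Lib.MP_9dc04a_an.O3Top
import Pool.Agent.Lib.MP_9dc04a_an.WkFin

namespace Pool.Agent.Results.MP_9dc04a_an.SharpOrder

/-- There is an absolute constant `C` such that every normalised univalent sense-preserving
harmonic map `h + conj g` of the unit disk has `|a_n| + |b_n| ≤ C n^2` for all `n ≥ 2`. -/
theorem result :
    ∃ C : ℝ, ∀ h g : ℂ → ℂ,
      DifferentiableOn ℂ h (Metric.ball (0:ℂ) 1) →
      DifferentiableOn ℂ g (Metric.ball (0:ℂ) 1) →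
      h 0 = 0 → deriv h 0 = 1 → g 0 = 0 → deriv g 0 = 0 →
      Set.InjOn (fun z => h z + starRingEnd ℂ (g z)) (Metric.ball (0:ℂ) 1) →
      (∀ z ∈ Metric.ball (0:ℂ) 1, ‖deriv g z‖ < ‖deriv h z‖) →
      ∀ n : ℕ, 2 ≤ n →
        ‖iteratedDeriv n h 0 / (n.factorial : ℂ)‖ + ‖iteratedDeriv n g 0 / (n.factorial : ℂ)‖ ≤
          C * (n:ℝ) ^ 2 := by
  obtain ⟨C, hC⟩ := Pool.Agent.Lib.MP_9dc04a_an.wk_sharp Pool.Agent.Lib.MP_9dc04a_an.order3
  exact ⟨C, fun _ _ dh dg h0 h1 g0 g1 inj jac n hn => hC ⟨dh, dg, inj, jac⟩ h0 g0 h1 g1 n hn⟩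

end Pool.Agent.Results.MP_9dc04a_an.SharpOrder
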